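import Mathlib
import Pool.Agent.N385.ST.Free

/-!
# The number of branching points in the half-radius ball is bounded

For every `d ≥ 2` there is a bound for the number of branching points in `B_{1/2}(0)` of a Steiner tree
for a finite subset of the unit sphere of `ℝ^d`: `N_d` is finite.
-/

set_option autoImplicit false

open MeasureTheory Pool.Agent.N385.ST

namespace Pool.Agent.Results.MP_d7b7f8_co.FiniteBranching

/-- `K` is a Steiner tree for `A`: a compact connected set containing `A` of minimal
one-dimensional Hausdorff measure -/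
def IsSteiner {d : ℕ} (A K : Set (EuclideanSpace ℝ (Fin d))) : Prop :=
  A ⊆ K ∧ IsCompact K ∧ IsConnected K ∧
    ∀ K' : Set (EuclideanSpace ℝ (Fin d)), A ⊆ K' → IsCompact K' → IsConnected K' →
      μH[1] K ≤ μH[1] K'

/-- the straight-line drawing of the tree `G` with the vertices `p v` is a Steiner tree for `A`; the
vertices are the terminals and branching points -/
structure Drawn {d n : ℕ} (A : Set (EuclideanSpace ℝ (Fin d))) (G : SimpleGraph (Fin n))
    (p : Fin n → EuclideanSpace ℝ (Fin d)) : Prop where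
  tree : G.IsTree
  inj : Function.Injective p
  terminals : A ⊆ Set.range p
  branching : ∀ v, p v ∉ A → 3 ≤ (G.neighborSet v).ncard
  emb : ∀ a b a' b', G.Adj a b → G.Adj a' b' → s(a, b) ≠ s(a', b') →
    segment ℝ (p a) (p b) ∩ segment ℝ (p a') (p b') ⊆ {p a, p b} ∩ {p a', p b'}
  steiner : IsSteiner A (⋃ (a) (b) (_ : G.Adj a b), segment ℝ (p a) (p b))

/-- `N_d`: the supremum of the number of branching points in `B_{1/2}(0)` over all finite subsets `A`
of the unit sphere and all Steiner trees for `A` -/
noncomputable def Nd (d : ℕ) : ℕ∞ :=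
  sSup {N | ∃ (A : Set (EuclideanSpace ℝ (Fin d))) (n : ℕ) (G : SimpleGraph (Fin n))
    (p : Fin n → EuclideanSpace ℝ (Fin d)), A.Finite ∧ A ⊆ Metric.sphere 0 1 ∧ Drawn A G p ∧
      N = {v | p v ∉ A ∧ p v ∈ Metric.ball 0 (1 / 2)}.encard}

/-- **`N_d` is finite.** -/
theorem result : ∀ d : ℕ, 2 ≤ d → Nd d < ⊤ := by
  classical
  intro d hd
  obtain ⟨B, hB⟩ := bound_ball (d := d) (by omega) (1 / 2) (by norm_num)
  have h : Nd d ≤ (B : ℕ∞) := by
    refine sSup_le ?_
    rintro N ⟨A, n, G, p, -, hA, hD, rfl⟩
    have h1 := hB (Fin n) G p 0 1 one_pos hD.inj hD.tree.isAcyclic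
      (ex_of_min hD.tree hD.terminals hD.steiner.2.2.1 hD.steiner.2.2.2 hD.emb) (by
        intro v hv
        refine hD.branching v fun hv2 => ?_
        have := hA hv2
        rw [Metric.mem_sphere] at this
        linarith)
    have h2 : {v | p v ∉ A ∧ p v ∈ Metric.ball 0 (1 / 2)} ⊆
        ((Finset.univ.filter fun v => dist (p v) 0 < 1 / 2 * 1 : Finset (Fin n)) : Set (Fin n)) := by
      rintro v ⟨-, hv⟩
      rw [Finset.mem_coe, Finset.mem_filter]
      refine ⟨Finset.mem_univ _, ?_⟩
      rw [Metric.mem_ball] at hv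
      linarith
    refine (Set.encard_le_encard h2).trans ?_
    rw [Set.encard_coe_eq_coe_finsetCard]
    exact_mod_cast h1
  exact h.trans_lt (ENat.natCast_lt_top B)

end Pool.Agent.Results.MP_d7b7f8_co.FiniteBranching
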